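import Mathlib
import Pool.Agent.Helper96.PA4

set_option autoImplicit false

namespace Pool.Agent.Results.MP_7d16da_al.PowerCentralizes

/-- Let `L` be a set of group laws all of whose finite models are abelian, let `G` satisfy the laws
in `L`, let `H` be a subnormal subgroup of `G`, and let `n ≠ 0` be divisible neither by `27` nor by
`p ^ 2` for a prime `p ≥ 5` (that is, `n = 2 ^ a * 3 ^ b * m` with `b ≤ 2` and `m` squarefree). If
`g ^ n` centralises `H`, then `g` normalises `H`. -/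
theorem result :
    ∀ L : Set (FreeGroup ℕ),
      (∀ (G : Type) [Group G] [Finite G],
          (∀ w ∈ L, ∀ φ : FreeGroup ℕ →* G, φ w = 1) → ∀ a b : G, a * b = b * a) →
      ∀ (G : Type) [Group G],
        (∀ w ∈ L, ∀ φ : FreeGroup ℕ →* G, φ w = 1) →
        ∀ H : Subgroup G,
          (∃ m : ℕ, ∃ f : ℕ → Subgroup G, f 0 = H ∧ f m = ⊤ ∧
              ∀ i < m, f i ≤ f (i + 1) ∧ ((f i).subgroupOf (f (i + 1))).Normal) →
          ∀ n : ℕ, n ≠ 0 → ¬ 27 ∣ n → (∀ p : ℕ, p.Prime → 5 ≤ p → ¬ p ^ 2 ∣ n) →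
            ∀ g : G, (∀ x ∈ H, g ^ n * x = x * g ^ n) → ∀ x : G, x ∈ H ↔ g * x * g⁻¹ ∈ H := by
  intro L hL G _ hG H hH n hn0 hn27 hnp g hg
  obtain ⟨m, f, h0, hm, hf⟩ := hH
  exact Pool.Agent.Helper96.PA.main_cent (L := L) (fun G _ _ h => hL G h) hG H m f h0 hm hf n
    ⟨hn0, hn27, hnp⟩ g hg

end Pool.Agent.Results.MP_7d16da_al.PowerCentralizes
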